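import Pool.Agent.Q31.GLW.Stm

/-!
# Project GLW (MP_2f8bd9_al), job RED

Every element of the group generated by `K` and `h` is conjugate to an element of `K` or to the value of
a cyclically reduced word.
-/

set_option autoImplicit false

namespace Pool.Agent.Q285.GLW

open Pool.Agent.Q31.GLW

section
variable {F V : Type} [Field F] [AddCommGroup V] [Module F V]

lemma ev_cons (h : V ≃ₗ[F] V) (a : (V ≃ₗ[F] V) × Bool) (L : List ((V ≃ₗ[F] V) × Bool)) :
    ev h (a :: L) = ev h L * (act h a.2 * a.1) := rfl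

lemma ev_append (h : V ≃ₗ[F] V) (L N : List ((V ≃ₗ[F] V) × Bool)) :
    ev h (L ++ N) = ev h N * ev h L := by
  induction L with
  | nil =>
    have : ev h [] = 1 := rfl
    rw [List.nil_append, this, mul_one]
  | cons a L ih =>
    rw [List.cons_append, ev_cons, ev_cons, ih, mul_assoc]

lemma sc_comm {k : V ≃ₗ[F] V} (hk : Sc k) (y : V ≃ₗ[F] V) : k * y = y * k := by
  obtain ⟨c, hc⟩ := hk
  ext v
  change k (y v) = y (k v)
  rw [hc, hc, map_smul]

lemma act_mul (h : V ≃ₗ[F] V) {e e' : Bool} (hne : e ≠ e') : act h e' * act h e = 1 := by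
  cases e <;> cases e'
  · exact absurd rfl hne
  · exact mul_inv_cancel h
  · exact inv_mul_cancel h
  · exact absurd rfl hne

lemma viol : ∀ w : List ((V ≃ₗ[F] V) × Bool), ¬ Rd w →
    ∃ (L : List ((V ≃ₗ[F] V) × Bool)) (a b : (V ≃ₗ[F] V) × Bool)
      (N : List ((V ≃ₗ[F] V) × Bool)), w = L ++ a :: b :: N ∧ a.2 ≠ b.2 ∧ Sc b.1
  | [], h => by simp [Rd] at h
  | [_], h => by simp [Rd] at h
  | a :: b :: M, h => by
    by_cases h1 : b.2 = a.2 ∨ ¬ Sc b.1
    · have h2 : ¬ Rd (b :: M) := fun h3 => h (by rw [Rd]; exact ⟨h1, h3⟩)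
      obtain ⟨L, c, d, N, h4, h5, h6⟩ := viol (b :: M) h2
      exact ⟨a :: L, c, d, N, by rw [h4]; rfl, h5, h6⟩
    · push Not at h1
      exact ⟨[], a, b, M, rfl, fun h2 => h1.1 h2.symm, h1.2⟩

lemma lastE_append (b : (V ≃ₗ[F] V) × Bool) : ∀ (M : List ((V ≃ₗ[F] V) × Bool)) (e : Bool),
    lastE e (M ++ [b]) = b.2
  | [], _ => rfl
  | c :: M, e => by
    rw [List.cons_append, lastE]
    exact lastE_append b M c.2

lemma step (h : V ≃ₗ[F] V) (a b : (V ≃ₗ[F] V) × Bool) (R : List ((V ≃ₗ[F] V) × Bool))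
    (hne : a.2 ≠ b.2) (hb : Sc b.1) : ev h (a :: b :: R) = ev h R * (b.1 * a.1) := by
  rw [ev_cons, ev_cons]
  have h1 := act_mul h hne
  calc ev h R * (act h b.2 * b.1) * (act h a.2 * a.1)
      = ev h R * (act h b.2 * (b.1 * act h a.2) * a.1) := by simp only [mul_assoc]
    _ = ev h R * (act h b.2 * (act h a.2 * b.1) * a.1) := by rw [sc_comm hb]
    _ = ev h R * ((act h b.2 * act h a.2) * (b.1 * a.1)) := by simp only [mul_assoc]
    _ = _ := by rw [h1, one_mul]

lemma conj_comm (x y : V ≃ₗ[F] V) : IsConj (x * y) (y * x) := by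
  rw [isConj_iff]
  exact ⟨y, by group⟩

/-- the conclusion -/
def Q (K : Subgroup (V ≃ₗ[F] V)) (h x : V ≃ₗ[F] V) : Prop :=
  (∃ k ∈ K, IsConj x k) ∨ ∃ (a : (V ≃ₗ[F] V) × Bool) (M : List ((V ≃ₗ[F] V) × Bool)),
    a.1 ∈ K ∧ (∀ b ∈ M, b.1 ∈ K) ∧ Cyc a M ∧ IsConj x (ev h (a :: M))

variable {K : Subgroup (V ≃ₗ[F] V)} {h : V ≃ₗ[F] V}

lemma Q.conj {x y : V ≃ₗ[F] V} (hxy : IsConj x y) (hy : Q K h y) : Q K h x := by
  rcases hy with ⟨k, hk, h1⟩ | ⟨a, M, h1, h2, h3, h4⟩
  · exact Or.inl ⟨k, hk, hxy.trans h1⟩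
  · exact Or.inr ⟨a, M, h1, h2, h3, hxy.trans h4⟩

lemma Q_mul {n : ℕ} (ih : ∀ w : List ((V ≃ₗ[F] V) × Bool), w.length ≤ n → (∀ b ∈ w, b.1 ∈ K) →
    Q K h (ev h w)) (w : List ((V ≃ₗ[F] V) × Bool)) (hw : w.length ≤ n) (hwK : ∀ b ∈ w, b.1 ∈ K)
    (k : V ≃ₗ[F] V) (hk : k ∈ K) : Q K h (ev h w * k) := by
  cases w with
  | nil =>
    have e : ev h [] * k = k := one_mul k
    rw [e]
    exact Or.inl ⟨k, hk, IsConj.refl k⟩
  | cons c R =>
    have e : ev h (c :: R) * k = ev h ((c.1 * k, c.2) :: R) := by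
      rw [ev_cons, ev_cons]
      simp only [mul_assoc]
    rw [e]
    refine ih _ (by simpa using hw) fun b hb => ?_
    rcases List.mem_cons.1 hb with rfl | hb
    · exact K.mul_mem (hwK c (List.mem_cons_self ..)) hk
    · exact hwK b (List.mem_cons_of_mem _ hb)

lemma Q_ev : ∀ (n : ℕ) (w : List ((V ≃ₗ[F] V) × Bool)), w.length ≤ n → (∀ b ∈ w, b.1 ∈ K) →
    Q K h (ev h w) := by
  intro n
  induction n with
  | zero =>
    intro w hw _
    have : w = [] := List.length_eq_zero_iff.1 (Nat.le_zero.1 hw)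
    subst this
    exact Or.inl ⟨1, K.one_mem, IsConj.refl 1⟩
  | succ n ih =>
    intro w hw hwK
    have red : ∀ (a b : (V ≃ₗ[F] V) × Bool) (R : List ((V ≃ₗ[F] V) × Bool)),
        (a :: b :: R).length = w.length → (∀ c ∈ a :: b :: R, c.1 ∈ K) → a.2 ≠ b.2 → Sc b.1 →
        IsConj (ev h w) (ev h (a :: b :: R)) → Q K h (ev h w) := by
      intro a b R hl hR hne hb hconj
      refine Q.conj hconj ?_
      rw [step h a b R hne hb]
      refine Q_mul ih R ?_ (fun c hc => hR c ?_) _ (K.mul_mem (hR b ?_) (hR a ?_))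
      · simp only [List.length_cons] at hl
        omega
      · exact List.mem_cons_of_mem _ (List.mem_cons_of_mem _ hc)
      · exact List.mem_cons_of_mem _ (List.mem_cons_self ..)
      · exact List.mem_cons_self ..
    cases w with
    | nil => exact Or.inl ⟨1, K.one_mem, IsConj.refl 1⟩
    | cons a M =>
      by_cases hr : Rd (a :: M)
      · by_cases hc : a.2 = lastE a.2 M ∨ ¬ Sc a.1
        · exact Or.inr ⟨a, M, hwK a (List.mem_cons_self ..),
            fun b hb => hwK b (List.mem_cons_of_mem _ hb), ⟨hr, hc⟩, IsConj.refl _⟩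
        · push Not at hc
          obtain ⟨h1, h2⟩ := hc
          rcases List.eq_nil_or_concat M with h3 | ⟨M0, b, h3⟩
          · subst h3
            exact absurd rfl h1
          · subst h3
            simp only [List.concat_eq_append] at *
            rw [lastE_append] at h1
            refine red b a M0 (by simp) (fun c hc => hwK c ?_) (Ne.symm h1) h2 ?_
            · simp only [List.mem_cons, List.mem_append, List.not_mem_nil, or_false] at hc ⊢
              tauto
            · have e1 : a :: (M0 ++ [b]) = (a :: M0) ++ [b] := rfl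
              have e2 : b :: a :: M0 = [b] ++ (a :: M0) := rfl
              rw [e1, e2, ev_append, ev_append]
              exact conj_comm _ _
      · obtain ⟨L, c, d, N, h1, h2, h3⟩ := viol _ hr
        refine red c d (N ++ L) ?_ (fun x hx => hwK x ?_) h2 h3 ?_
        · rw [h1]
          simp only [List.length_append, List.length_cons]
          omega
        · rw [h1]
          simp only [List.mem_cons, List.mem_append] at hx ⊢
          tauto
        · have e2 : c :: d :: (N ++ L) = (c :: d :: N) ++ L := rfl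
          rw [h1, e2, ev_append, ev_append]
          exact conj_comm _ _

end

theorem t_RED : S_RED := by
  intro F V _ _ _ K h x hx
  have key : ∃ k ∈ K, ∃ M : List ((V ≃ₗ[F] V) × Bool), (∀ b ∈ M, b.1 ∈ K) ∧ x = k * ev h M := by
    induction hx using Subgroup.closure_induction_left with
    | one => exact ⟨1, K.one_mem, [], by simp, (one_mul _).symm⟩
    | mul_left y hy z _ ih =>
      obtain ⟨k, hk, M, hM, rfl⟩ := ih
      rcases hy with hy | hy
      · exact ⟨y * k, K.mul_mem hy hk, M, hM, (mul_assoc _ _ _).symm⟩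
      · rw [Set.mem_singleton_iff] at hy
        subst hy
        refine ⟨1, K.one_mem, M ++ [(k, true)], fun b hb => ?_, ?_⟩
        · rcases List.mem_append.1 hb with hb | hb
          · exact hM b hb
          · rw [List.mem_singleton] at hb
            rw [hb]
            exact hk
        · rw [ev_append, one_mul, ← mul_assoc]
          rfl
    | inv_mul_cancel y hy z _ ih =>
      obtain ⟨k, hk, M, hM, rfl⟩ := ih
      rcases hy with hy | hy
      · exact ⟨y⁻¹ * k, K.mul_mem (K.inv_mem hy) hk, M, hM, (mul_assoc _ _ _).symm⟩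
      · rw [Set.mem_singleton_iff] at hy
        subst hy
        refine ⟨1, K.one_mem, M ++ [(k, false)], fun b hb => ?_, ?_⟩
        · rcases List.mem_append.1 hb with hb | hb
          · exact hM b hb
          · rw [List.mem_singleton] at hb
            rw [hb]
            exact hk
        · rw [ev_append, one_mul, ← mul_assoc]
          rfl
  obtain ⟨k, hk, M, hM, rfl⟩ := key
  exact Q.conj (conj_comm _ _) (Q_mul (Q_ev M.length) M le_rfl hM k hk)

end Pool.Agent.Q285.GLW
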